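import Pool.Agent.Y121.ZI.Stm2

/-!
# ZI2-MOVE: moving factors for numerically trivial operators
-/

open scoped TensorProduct

universe u v w

namespace Pool.Agent.Y344.ZI.Move

open Module Pool.Agent.Y133.Half Pool.Agent.Y121.ZI Pool.Agent.Y121.ZI.NCTheory

variable {K : Type u} [Field K] {T : NCTheory.{u, v, w} K}

/-- the trace pairing is perfect -/
lemma trace_perfect {V W : Type w} [AddCommGroup V] [Module K V] [FiniteDimensional K V]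
    [AddCommGroup W] [Module K W] (L : V →ₗ[K] W)
    (h : ∀ M : W →ₗ[K] V, LinearMap.trace K V (M ∘ₗ L) = 0) : L = 0 := by
  apply LinearMap.ext
  intro x
  rw [LinearMap.zero_apply, ← Module.forall_dual_apply_eq_zero_iff K]
  intro φ
  have h1 := h (φ.smulRight x)
  have h2 : (φ.smulRight x) ∘ₗ L = (φ ∘ₗ L).smulRight x := by
    apply LinearMap.ext
    intro y
    rfl
  rw [h2, LinearMap.trace_smulRight] at h1
  exact h1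

/-- the trace identity -/
lemma key {X Z Z' : T.Obj} {c : T.H T.one →ₗ[K] T.H (T.ten Z Z')}
    {d : T.H (T.ten Z Z') →ₗ[K] T.H T.one}
    (hcd : ∀ b : T.H Z →ₗ[K] T.H Z,
      d (ex b (LinearMap.id : T.H Z' →ₗ[K] T.H Z') (c T.e)) =
        LinearMap.trace K (T.H Z) (T.par Z ∘ₗ LinearMap.id ∘ₗ b) • T.e)
    {ρ : T.H (T.ten X T.one) →ₗ[K] T.H X} {ρ' : T.H X →ₗ[K] T.H (T.ten X T.one)}
    (hρ1 : ∀ x : T.H X, ρ (kx x T.e) = x) (hρ2 : ∀ x : T.H X, ρ' x = kx x T.e)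
    {α : T.H (T.ten (T.ten X Z) Z') →ₗ[K] T.H (T.ten X (T.ten Z Z'))}
    {α' : T.H (T.ten X (T.ten Z Z')) →ₗ[K] T.H (T.ten (T.ten X Z) Z')}
    (hα1 : ∀ (x : T.H X) (y : T.H Z) (z : T.H Z'), α (kx (kx x y) z) = kx x (kx y z))
    (hα2 : ∀ (x : T.H X) (y : T.H Z) (z : T.H Z'), α' (kx x (kx y z)) = kx (kx x y) z)
    (w : T.H (T.ten X Z) →ₗ[K] T.H (T.ten X Z)) :
    LinearMap.trace K (T.H X) (T.par X ∘ₗ ρ ∘ₗ
        ex (LinearMap.id : T.H X →ₗ[K] T.H X) d ∘ₗ α ∘ₗ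
          ex w (LinearMap.id : T.H Z' →ₗ[K] T.H Z') ∘ₗ α' ∘ₗ
          ex (LinearMap.id : T.H X →ₗ[K] T.H X) c ∘ₗ ρ') =
        LinearMap.trace K (T.H (T.ten X Z)) (T.par (T.ten X Z) ∘ₗ w) := by
  induction w using end_induction with
  | h0 x b =>
    have h1 : ρ ∘ₗ ex (LinearMap.id : T.H X →ₗ[K] T.H X) d ∘ₗ α ∘ₗ
        ex (ex x b) (LinearMap.id : T.H Z' →ₗ[K] T.H Z') ∘ₗ α' ∘ₗ
        ex (LinearMap.id : T.H X →ₗ[K] T.H X) c ∘ₗ ρ' =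
        LinearMap.trace K (T.H Z) (T.par Z ∘ₗ LinearMap.id ∘ₗ b) • x := by
      apply LinearMap.ext
      intro y
      have h2 : α ∘ₗ ex (ex x b) (LinearMap.id : T.H Z' →ₗ[K] T.H Z') ∘ₗ α' =
          ex x (ex b LinearMap.id) := by
        apply kx_ext₃'
        intro p q r
        simp only [LinearMap.comp_apply, hα2, ex_kx, hα1]
      have h3 : (α ∘ₗ ex (ex x b) (LinearMap.id : T.H Z' →ₗ[K] T.H Z') ∘ₗ α') (kx y (c T.e)) =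
          kx (x y) (ex b LinearMap.id (c T.e)) := by
        rw [h2, ex_kx]
      simp only [LinearMap.comp_apply] at h3 ⊢
      rw [hρ2, ex_kx, LinearMap.id_apply, h3, ex_kx, LinearMap.id_apply, hcd, kx_smul_right,
        map_smul, hρ1, LinearMap.smul_apply]
    rw [h1, par_ex, ex_comp, trace_ex, LinearMap.comp_smul, map_smul, smul_eq_mul, mul_comm,
      LinearMap.id_comp]
  | ha u v hu hv =>
    simp only [ex_add_left, LinearMap.add_comp, LinearMap.comp_add, map_add] at hu hv ⊢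
    rw [hu, hv]

lemma move_i (n1 : SNum1 T) (n2 : SNum2 T) {X Y Z Z' : T.Obj}
    (hD : DP Z Z' LinearMap.id LinearMap.id) (h : Nn X (T.ten Y Z') = ⊥) :
    Nn (T.ten X Z) Y = ⊥ := by
  obtain ⟨c, hc, d, hd, hcd⟩ := hD
  obtain ⟨ρ, hρ, ρ', hρ', hρ1, hρ2⟩ := exists_runit X
  obtain ⟨α, hα, α', hα', hα1, hα2⟩ := exists_assoc X Z Z'
  rw [eq_bot_iff]
  intro v hv
  rw [Submodule.mem_bot]
  have hΦ : ex v (LinearMap.id : T.H Z' →ₗ[K] T.H Z') ∘ₗ (α' ∘ₗ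
      (ex (LinearMap.id : T.H X →ₗ[K] T.H X) c ∘ₗ ρ')) ∈ Nn X (T.ten Y Z') :=
    (n1 X (T.ten (T.ten X Z) Z') (T.ten Y Z')).2 _ (n2 (T.ten X Z) Y Z' v hv).1 _
      (S_comp (S_comp hρ' (S_ex S_id hc)) hα')
  rw [h, Submodule.mem_bot] at hΦ
  apply trace_perfect
  intro M
  have hk := key hcd hρ1 hρ2 hα1 hα2 ((T.par (T.ten X Z) ∘ₗ M) ∘ₗ v)
  have e1 : T.par (T.ten X Z) ∘ₗ ((T.par (T.ten X Z) ∘ₗ M) ∘ₗ v) = M ∘ₗ v := by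
    calc T.par (T.ten X Z) ∘ₗ ((T.par (T.ten X Z) ∘ₗ M) ∘ₗ v)
        = (T.par (T.ten X Z) ∘ₗ T.par (T.ten X Z)) ∘ₗ M ∘ₗ v := rfl
      _ = M ∘ₗ v := by rw [par_par', LinearMap.id_comp]
  rw [e1] at hk
  rw [← hk]
  have e2 : ex ((T.par (T.ten X Z) ∘ₗ M) ∘ₗ v) (LinearMap.id : T.H Z' →ₗ[K] T.H Z') =
      ex (T.par (T.ten X Z) ∘ₗ M) LinearMap.id ∘ₗ ex v LinearMap.id := by
    rw [ex_comp, LinearMap.id_comp]
  rw [e2]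
  have e3 : T.par X ∘ₗ ρ ∘ₗ ex (LinearMap.id : T.H X →ₗ[K] T.H X) d ∘ₗ α ∘ₗ
      (ex (T.par (T.ten X Z) ∘ₗ M) LinearMap.id ∘ₗ
        ex v (LinearMap.id : T.H Z' →ₗ[K] T.H Z')) ∘ₗ α' ∘ₗ
      ex (LinearMap.id : T.H X →ₗ[K] T.H X) c ∘ₗ ρ' =
      (T.par X ∘ₗ ρ ∘ₗ ex (LinearMap.id : T.H X →ₗ[K] T.H X) d ∘ₗ α ∘ₗ
        ex (T.par (T.ten X Z) ∘ₗ M) (LinearMap.id : T.H Z' →ₗ[K] T.H Z')) ∘ₗ
      (ex v (LinearMap.id : T.H Z' →ₗ[K] T.H Z') ∘ₗ (α' ∘ₗ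
      (ex (LinearMap.id : T.H X →ₗ[K] T.H X) c ∘ₗ ρ'))) := rfl
  rw [e3, hΦ, LinearMap.comp_zero, map_zero]

lemma move_ii (n1 : SNum1 T) (n2 : SNum2 T) {X Y Z Z' : T.Obj}
    (hD : DP Z Z' LinearMap.id LinearMap.id) (h : Nn (T.ten Y Z') X = ⊥) :
    Nn Y (T.ten X Z) = ⊥ := by
  obtain ⟨c, hc, d, hd, hcd⟩ := hD
  obtain ⟨ρ, hρ, ρ', hρ', hρ1, hρ2⟩ := exists_runit X
  obtain ⟨α, hα, α', hα', hα1, hα2⟩ := exists_assoc X Z Z'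
  rw [eq_bot_iff]
  intro u hu
  rw [Submodule.mem_bot]
  have hΨ : (ρ ∘ₗ ex (LinearMap.id : T.H X →ₗ[K] T.H X) d ∘ₗ α) ∘ₗ
      ex u (LinearMap.id : T.H Z' →ₗ[K] T.H Z') ∈ Nn (T.ten Y Z') X :=
    (n1 (T.ten Y Z') (T.ten (T.ten X Z) Z') X).1 _ (n2 Y (T.ten X Z) Z' u hu).1 _
      (S_comp (S_comp hα (S_ex S_id hd)) hρ)
  rw [h, Submodule.mem_bot] at hΨ
  apply trace_perfect
  intro M
  rw [LinearMap.trace_comp_comm']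
  have hk := key hcd hρ1 hρ2 hα1 hα2 (u ∘ₗ (M ∘ₗ T.par (T.ten X Z)))
  have e1 : LinearMap.trace K (T.H (T.ten X Z))
      (T.par (T.ten X Z) ∘ₗ (u ∘ₗ (M ∘ₗ T.par (T.ten X Z)))) =
      LinearMap.trace K (T.H (T.ten X Z)) (u ∘ₗ M) := by
    rw [LinearMap.trace_comp_comm']
    congr 1
    calc (u ∘ₗ (M ∘ₗ T.par (T.ten X Z))) ∘ₗ T.par (T.ten X Z)
        = u ∘ₗ M ∘ₗ (T.par (T.ten X Z) ∘ₗ T.par (T.ten X Z)) := rfl
      _ = u ∘ₗ M := by rw [par_par', LinearMap.comp_id]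
  rw [e1] at hk
  rw [← hk]
  have e2 : ex (u ∘ₗ (M ∘ₗ T.par (T.ten X Z))) (LinearMap.id : T.H Z' →ₗ[K] T.H Z') =
      ex u LinearMap.id ∘ₗ ex (M ∘ₗ T.par (T.ten X Z)) LinearMap.id := by
    rw [ex_comp, LinearMap.id_comp]
  rw [e2]
  have e3 : T.par X ∘ₗ ρ ∘ₗ ex (LinearMap.id : T.H X →ₗ[K] T.H X) d ∘ₗ α ∘ₗ
      (ex u LinearMap.id ∘ₗ
        ex (M ∘ₗ T.par (T.ten X Z)) (LinearMap.id : T.H Z' →ₗ[K] T.H Z')) ∘ₗ α' ∘ₗ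
      ex (LinearMap.id : T.H X →ₗ[K] T.H X) c ∘ₗ ρ' =
      T.par X ∘ₗ ((ρ ∘ₗ ex (LinearMap.id : T.H X →ₗ[K] T.H X) d ∘ₗ α) ∘ₗ
        ex u (LinearMap.id : T.H Z' →ₗ[K] T.H Z')) ∘ₗ
      (ex (M ∘ₗ T.par (T.ten X Z)) (LinearMap.id : T.H Z' →ₗ[K] T.H Z') ∘ₗ (α' ∘ₗ
      (ex (LinearMap.id : T.H X →ₗ[K] T.H X) c ∘ₗ ρ'))) := rfl
  rw [e3, hΨ, LinearMap.zero_comp, LinearMap.comp_zero, map_zero]

lemma triv_left (n1 : SNum1 T) {X X' Y : T.Obj} (i : OIso X X') (h : Nn X Y = ⊥) :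
    Nn X' Y = ⊥ := by
  obtain ⟨θ, hθ, θ', hθ', h1, h2, -⟩ := i
  rw [eq_bot_iff]
  intro u hu
  rw [Submodule.mem_bot]
  have h3 : u ∘ₗ θ ∈ Nn X Y := (n1 X X' Y).2 u hu θ hθ
  rw [h, Submodule.mem_bot] at h3
  calc u = u ∘ₗ (θ ∘ₗ θ') := by rw [h2, LinearMap.comp_id]
    _ = (u ∘ₗ θ) ∘ₗ θ' := rfl
    _ = 0 := by rw [h3, LinearMap.zero_comp]

lemma triv_right (n1 : SNum1 T) {X Y Y' : T.Obj} (i : OIso Y Y') (h : Nn X Y = ⊥) :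
    Nn X Y' = ⊥ := by
  obtain ⟨θ, hθ, θ', hθ', h1, h2, -⟩ := i
  rw [eq_bot_iff]
  intro u hu
  rw [Submodule.mem_bot]
  have h3 : θ' ∘ₗ u ∈ Nn X Y := (n1 X Y' Y).1 u hu θ' hθ'
  rw [h, Submodule.mem_bot] at h3
  calc u = (θ ∘ₗ θ') ∘ₗ u := by rw [h2, LinearMap.id_comp]
    _ = θ ∘ₗ (θ' ∘ₗ u) := rfl
    _ = 0 := by rw [h3, LinearMap.comp_zero]

theorem move' [CharZero K] (h : SDual2 T) (n1 : SNum1 T) (n2 : SNum2 T) : SMove T := by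
  intro A hA m n
  have s1 : Nn (T.pow A (m + n)) (T.pow A (m + n)) = ⊥ :=
    triv_left n1 (OIso.unit (T.pow A (m + n)))
      (move_i n1 n2 (h (T.pow A (m + n))).1 (hA (m + n)))
  have s2 : Nn (T.ten (T.pow A m) (T.pow A n)) (T.pow A (m + n)) = ⊥ :=
    triv_left n1 (OIso.pow_add A m n).symm s1
  have s3 : Nn (T.ten (T.pow A m) (T.pow A n)) (T.ten (T.pow A n) (T.pow A m)) = ⊥ :=
    triv_right n1 ((OIso.pow_add A m n).symm.trans (OIso.swap _ _)) s2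
  have s4 : Nn (T.pow A m) (T.ten (T.ten (T.pow A n) (T.pow A m)) (T.op (T.pow A n))) = ⊥ :=
    move_ii n1 n2 (h (T.pow A n)).2.1 s3
  have i1 : OIso (T.ten (T.ten (T.pow A n) (T.pow A m)) (T.op (T.pow A n)))
      (T.ten (zz A n) (T.pow A m)) :=
    ((OIso.assoc _ _ _).trans (OIso.ten (PIso.refl _ _) (OIso.swap _ _))).trans
      (OIso.assoc _ _ _).symm
  have s5 : Nn (T.pow A m) (T.ten (zz A n) (T.pow A m)) = ⊥ := triv_right n1 i1 s4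
  exact move_i n1 n2 (h (T.pow A m)).2.1 s5

end Pool.Agent.Y344.ZI.Move

namespace Pool.Agent.Y344.ZI

open Pool.Agent.Y121.ZI Pool.Agent.Y121.ZI.NCTheory

theorem move {K : Type u} [Field K] [CharZero K] (T : NCTheory.{u, v, w} K)
    (h : SDual2 T) (n1 : SNum1 T) (n2 : SNum2 T) : SMove T := Move.move' h n1 n2

end Pool.Agent.Y344.ZI
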